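import Pool.Agent.H51.MFL.S

/-!
# Board mfl: TPL (the final statement)
-/

set_option autoImplicit false

open Module MvPolynomial

namespace Pool.MFL

open Pool.MFQ Pool.MFM

lemma adC_of_adp {L : Type} [LieRing L] [LieAlgebra ℂ L] {V : LieIdeal ℂ L} {σ τ : Type}
    (b : Basis (σ ⊕ τ) ℂ L) (hV : IsAb V) (hb : Adp V b) : AdC (stc b) where
  skew := by
    intro i j k
    unfold stc
    rw [← lie_skew, map_neg, Finsupp.neg_apply]
  ab := by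
    intro l m k
    unfold stc
    rw [hV _ (hb.1 l) _ (hb.1 m), map_zero, Finsupp.zero_apply]
  idl := by
    intro z l i
    unfold stc
    exact hb.2 _ (lie_mem_right ℂ L V _ _ (hb.1 l)) i

theorem t_tpl (hBAS : BASStmt) (hDIR : DIRStmt) (hLIM : LIMStmt) (hRLF : RLFStmt)
    (hASL : ASLStmt) (hFIN : FINStmt) (hEXX : EXXStmt) : LimStmt := by
  intro L _ _ _ V hV hC a
  obtain ⟨s, q, b, hb⟩ := hBAS L V
  have hAd := adC_of_adp b hV hb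
  obtain ⟨e, he⟩ := hEXX ℂ L (Fin s) (Fin q) b hAd
  obtain ⟨a₀, ha₀⟩ : ∃ a₀ : Fin s ⊕ Fin q → ℂ, a₀ = (dualC b).symm a := ⟨_, rfl⟩
  obtain ⟨b₀, hb₀⟩ := hDIR L V s q b a₀
  obtain ⟨hR, hR'⟩ := hRLF L s q b a₀ b₀ hAd e he
  obtain ⟨A, hA1, hA2, hA3⟩ := hASL L s q b (RelX b (aX (stc b) a₀ b₀) e)
    (TPs (opA b) a₀) hR (by
      rintro p ⟨f, k, hf, hk, hp, hpt⟩
      refine ⟨k, hk, hp, fun K hK => ?_⟩
      obtain ⟨G, hG1, hG2⟩ := hLIM L V s q b a₀ b₀ hV hC hb hb₀ f K k p hf hk hK hp hpt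
      obtain ⟨u, hu⟩ := hR' K k G hG1
      rw [hG2] at hu
      exact ⟨u, hu⟩)
  rw [ha₀] at hA2 hA3
  exact ⟨A, hFIN L s q b a A hA1 hA2 hA3⟩

end Pool.MFL
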