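import Pool.Agent.H51.MFL.S

/-!
# Board mfl: VPX (large characteristic)
-/

set_option autoImplicit false

open Module MvPolynomial

namespace Pool.MFL

open Pool.MFQ Pool.MFM

namespace VP

/-! ### supports in families -/

/-- All nonzero coefficients, of exponent `i` and monomial `α`, satisfy `Q α i`. -/
def Sup {R σ : Type} [CommRing R] (Q : (σ →₀ ℕ) → ℕ → Prop) (s : MvPolynomial σ (Polynomial R)) :
    Prop := ∀ α i, (coeff α s).coeff i ≠ 0 → Q α i

section

variable {R σ : Type} [CommRing R]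

lemma sup_zero (Q : (σ →₀ ℕ) → ℕ → Prop) : Sup Q (0 : MvPolynomial σ (Polynomial R)) := by
  intro α i h
  simp at h

lemma sup_add {Q : (σ →₀ ℕ) → ℕ → Prop}
    {s t : MvPolynomial σ (Polynomial R)} (hs : Sup Q s) (ht : Sup Q t) : Sup Q (s + t) := by
  intro α i h
  rw [coeff_add, Polynomial.coeff_add] at h
  by_cases h1 : (coeff α s).coeff i = 0
  · exact ht α i (by rw [h1, zero_add] at h; exact h)
  · exact hs α i h1

lemma sup_neg {Q : (σ →₀ ℕ) → ℕ → Prop}
    {s : MvPolynomial σ (Polynomial R)} (hs : Sup Q s) : Sup Q (-s) := by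
  intro α i h
  rw [coeff_neg, Polynomial.coeff_neg, neg_ne_zero] at h
  exact hs α i h

lemma sup_sum {ι : Type} {Q : (σ →₀ ℕ) → ℕ → Prop} (I : Finset ι)
    (f : ι → MvPolynomial σ (Polynomial R)) (h : ∀ i ∈ I, Sup Q (f i)) :
    Sup Q (∑ i ∈ I, f i) := by
  classical
  induction I using Finset.induction_on with
  | empty => rw [Finset.sum_empty]; exact sup_zero Q
  | insert a I ha ih =>
    rw [Finset.sum_insert ha]
    exact sup_add (h a (Finset.mem_insert_self _ _))
      (ih fun i hi => h i (Finset.mem_insert_of_mem hi))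

lemma sup_mul {Q Q' Q'' : (σ →₀ ℕ) → ℕ → Prop}
    {s t : MvPolynomial σ (Polynomial R)} (hs : Sup Q s) (ht : Sup Q' t)
    (h : ∀ α i β j, Q α i → Q' β j → Q'' (α + β) (i + j)) : Sup Q'' (s * t) := by
  classical
  intro γ n hn
  rw [coeff_mul, Polynomial.finsetSum_coeff] at hn
  obtain ⟨x, hx, hx0⟩ := Finset.exists_ne_zero_of_sum_ne_zero hn
  rw [Polynomial.coeff_mul] at hx0
  obtain ⟨y, hy, hy0⟩ := Finset.exists_ne_zero_of_sum_ne_zero hx0
  have hx' := Finset.HasAntidiagonal.mem_antidiagonal.1 hx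
  have hy' := Finset.HasAntidiagonal.mem_antidiagonal.1 hy
  rw [← hx', ← hy']
  exact h _ _ _ _ (hs _ _ (left_ne_zero_of_mul hy0)) (ht _ _ (right_ne_zero_of_mul hy0))

lemma sup_mono {Q Q' : (σ →₀ ℕ) → ℕ → Prop}
    {s : MvPolynomial σ (Polynomial R)} (hs : Sup Q s) (h : ∀ α i, Q α i → Q' α i) :
    Sup Q' s := fun α i hi => h α i (hs α i hi)

lemma sup_hom {s : MvPolynomial σ (Polynomial R)} {h : ℕ}
    (hs : s.IsHomogeneous h) : Sup (fun α _ => α.degree = h) s := by
  intro α i hi
  by_contra hne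
  rw [hs.coeff_eq_zero hne, Polynomial.coeff_zero] at hi
  exact hi rfl

lemma sup_monomial (α : σ →₀ ℕ) (f : Polynomial R) :
    Sup (fun β i => β = α ∧ f.coeff i ≠ 0) (monomial α f) := by
  classical
  intro β i hi
  rw [coeff_monomial] at hi
  by_cases h : α = β
  · rw [if_pos h] at hi
    exact ⟨h.symm, hi⟩
  · rw [if_neg h, Polynomial.coeff_zero] at hi
    exact absurd rfl hi

lemma sup_C (f : Polynomial R) :
    Sup (fun (β : σ →₀ ℕ) i => β = 0 ∧ f.coeff i ≠ 0) (C f) := sup_monomial 0 f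

lemma sup_one : Sup (fun (β : σ →₀ ℕ) i => β = 0 ∧ i = 0)
    (1 : MvPolynomial σ (Polynomial R)) := by
  have h := sup_C (σ := σ) (1 : Polynomial R)
  rw [C_1] at h
  refine sup_mono h fun α i hi => ⟨hi.1, ?_⟩
  by_contra h0
  apply hi.2
  rw [Polynomial.coeff_one, if_neg h0]

lemma sup_X (l : σ) : Sup (fun (β : σ →₀ ℕ) i => β = Finsupp.single l 1 ∧ i = 0)
    (X l : MvPolynomial σ (Polynomial R)) := by
  have h := sup_monomial (R := R) (Finsupp.single l 1) 1
  refine sup_mono h fun α i hi => ⟨hi.1, ?_⟩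
  by_contra h0
  apply hi.2
  rw [Polynomial.coeff_one, if_neg h0]

lemma sup_prod {ι : Type} (I : Finset ι) (f : ι → MvPolynomial σ (Polynomial R)) (dd : ι → ℕ)
    (T : ℕ) (h : ∀ k ∈ I, Sup (fun α i => α.degree = dd k ∧ i ≤ T) (f k)) :
    Sup (fun α i => α.degree = ∑ k ∈ I, dd k ∧ i ≤ I.card * T) (∏ k ∈ I, f k) := by
  classical
  induction I using Finset.induction_on with
  | empty =>
    rw [Finset.prod_empty]
    refine sup_mono sup_one fun α i hi => ?_
    rw [hi.1, hi.2]
    simp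
  | insert a I ha ih =>
    rw [Finset.prod_insert ha]
    refine sup_mul (h a (Finset.mem_insert_self _ _))
      (ih fun k hk => h k (Finset.mem_insert_of_mem hk)) fun α i β j hα hβ => ?_
    rw [Finset.sum_insert ha, Finset.card_insert_of_notMem ha, map_add, hα.1, hβ.1]
    refine ⟨rfl, ?_⟩
    have := hα.2
    have := hβ.2
    nlinarith

lemma sup_units {Q : (σ →₀ ℕ) → ℕ → Prop} {s : MvPolynomial σ (Polynomial R)} (hs : Sup Q s)
    (u : ℤˣ) : Sup Q (u • s) := by
  rcases Int.units_eq_one_or u with h | h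
  · rw [h, one_smul]
    exact hs
  · rw [h, Units.smul_def, Units.val_neg, Units.val_one, neg_smul, one_smul]
    exact sup_neg hs

/-! ### minors -/

lemma sup_det {m : ℕ} (M : Matrix (Fin m) (Fin m) (MvPolynomial σ (Polynomial R)))
    (dd : Fin m → ℕ) (T : ℕ)
    (h : ∀ i k, Sup (fun α i => α.degree = dd k ∧ i ≤ T) (M i k)) :
    Sup (fun α i => α.degree = ∑ k, dd k ∧ i ≤ m * T) M.det := by
  rw [Matrix.det_apply]
  refine sup_sum _ _ fun g _ => sup_units ?_ _
  have h1 := sup_prod Finset.univ (fun i => M (g i) i) dd T fun k _ => h (g k) k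
  rwa [Finset.card_fin] at h1

lemma sup_adj {m : ℕ} (M : Matrix (Fin m) (Fin m) (MvPolynomial σ (Polynomial R)))
    (dd : Fin m → ℕ) (T : ℕ)
    (h : ∀ i k, Sup (fun α i => α.degree = dd k ∧ i ≤ T) (M i k)) (j k : Fin m) :
    Sup (fun α _ => α.degree = ∑ i ∈ Finset.univ.erase j, dd i) (M.adjugate j k) := by
  rw [Matrix.adjugate_apply, Matrix.det_apply]
  refine sup_sum _ _ fun g _ => sup_units ?_ _
  by_cases hg : g j = k
  · rw [← Finset.mul_prod_erase Finset.univ _ (Finset.mem_univ j)]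
    have h1 : (M.updateRow k (Pi.single j 1)) (g j) j = 1 := by
      rw [hg, Matrix.updateRow_self, Pi.single_eq_same]
    have h2 : ∏ i ∈ Finset.univ.erase j, (M.updateRow k (Pi.single j 1)) (g i) i =
        ∏ i ∈ Finset.univ.erase j, M (g i) i := by
      refine Finset.prod_congr rfl fun i hi => ?_
      rw [Matrix.updateRow_ne]
      intro h3
      rw [← hg] at h3
      exact (Finset.mem_erase.1 hi).1 (g.injective h3)
    rw [h1, h2, one_mul]
    exact sup_mono (sup_prod _ (fun i => M (g i) i) dd T fun i _ => h (g i) i)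
      fun α i hi => hi.1
  · have h1 : ∏ i, (M.updateRow k (Pi.single j 1)) (g i) i = 0 := by
      refine Finset.prod_eq_zero (Finset.mem_univ (g.symm k)) ?_
      rw [Equiv.apply_symm_apply, Matrix.updateRow_self, Pi.single_eq_of_ne]
      intro h2
      apply hg
      rw [← h2, Equiv.apply_symm_apply]
    rw [h1]
    exact sup_zero _

/-! ### the order -/

/-- The order at `t = 0`. -/
noncomputable def oo (s : MvPolynomial σ (Polynomial R)) : ℕ :=
  sInf {i | ∃ α, (coeff α s).coeff i ≠ 0}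

lemma oo_spec {s : MvPolynomial σ (Polynomial R)} (hs : s ≠ 0) :
    ∃ α, (coeff α s).coeff (oo s) ≠ 0 := by
  have hne : {i | ∃ α, (coeff α s).coeff i ≠ 0}.Nonempty := by
    obtain ⟨α, hα⟩ := MvPolynomial.ne_zero_iff.1 hs
    obtain ⟨i, hi⟩ : ∃ i, (coeff α s).coeff i ≠ 0 := by
      by_contra hcon
      push Not at hcon
      exact hα (Polynomial.ext fun i => by rw [hcon i, Polynomial.coeff_zero])
    exact ⟨i, α, hi⟩
  exact Nat.sInf_mem hne

lemma oo_le {s : MvPolynomial σ (Polynomial R)} {α : σ →₀ ℕ} {i : ℕ}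
    (h : (coeff α s).coeff i ≠ 0) : oo s ≤ i := Nat.sInf_le ⟨α, h⟩

/-! ### derivations -/

lemma sup_DC {τ : Type} [Fintype σ] (c : σ ⊕ τ → σ ⊕ τ → σ ⊕ τ → R) (l : τ)
    (Q : ℕ → ℕ → Prop) (s : MvPolynomial σ (Polynomial R))
    (hs : Sup (fun α i => Q α.degree i) s) :
    Sup (fun α i => Q α.degree i) (DC (cX c) l s) := by
  classical
  have h0 : DC (cX c) l s = ∑ α ∈ s.support, DC (cX c) l (monomial α (coeff α s)) := by
    conv_lhs => rw [s.as_sum]
    rw [map_sum]
  rw [h0]
  refine sup_sum _ _ fun α hα => ?_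
  unfold DC
  rw [mkDerivation_monomial, MvPolynomial.smul_eq_C_mul]
  have h1 : Sup (fun (β : σ →₀ ℕ) i => β.degree = α.degree ∧ i = 0)
      (α.sum fun i k => monomial (α - Finsupp.single i 1) (k : Polynomial R) •
        ∑ m, C (cX c (Sum.inr l) (Sum.inl i) (Sum.inl m)) * X m) := by
    unfold Finsupp.sum
    refine sup_sum _ _ fun n hn => ?_
    beta_reduce
    rw [smul_eq_mul]
    have h2 : Sup (fun (β : σ →₀ ℕ) i => β.degree = 1 ∧ i = 0)
        (∑ m, C (cX c (Sum.inr l) (Sum.inl n) (Sum.inl m)) * X m :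
          MvPolynomial σ (Polynomial R)) := by
      refine sup_sum _ _ fun m _ => ?_
      refine sup_mul (sup_C _) (sup_X m) fun β i γ j hβ hγ => ?_
      have h3 : i = 0 := by
        by_contra hne
        apply hβ.2
        unfold cX
        rw [Polynomial.coeff_C, if_neg hne]
      rw [hβ.1, hγ.1, hγ.2, h3, zero_add, Finsupp.degree_single]
      exact ⟨rfl, rfl⟩
    refine sup_mul (sup_monomial _ _) h2 fun β i γ j hβ hγ => ?_
    have h3 : i = 0 := by
      by_contra hne
      apply hβ.2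
      rw [Polynomial.coeff_natCast_ite, if_neg hne, Nat.cast_zero]
    have h4 : α - Finsupp.single n 1 + Finsupp.single n 1 = α := by
      apply tsub_add_cancel_of_le
      rw [Finsupp.single_le_iff]
      exact Nat.one_le_iff_ne_zero.mpr (Finsupp.mem_support_iff.mp hn)
    have h5 : (α - Finsupp.single n 1).degree + 1 = α.degree := by
      conv_rhs => rw [← h4]
      rw [map_add, Finsupp.degree_single]
    rw [hβ.1, hγ.2, h3, map_add, hγ.1, h5]
    exact ⟨rfl, rfl⟩
  refine sup_mul (sup_C _) h1 fun β i γ j hβ hγ => ?_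
  rw [hβ.1, zero_add, hγ.1, hγ.2, add_zero]
  exact hs α i hβ.2

end

/-! ### the polynomial `g` -/

section

variable {R σ ι : Type} [CommRing R]

/-- Homogeneity of polynomials over polynomials. -/
def Hk (k : ℕ) (g : MvPolynomial ι (MvPolynomial σ (Polynomial R))) : Prop :=
  ∀ α, Sup (fun β _ => α.degree + β.degree = k) (coeff α g)

lemma hk_zero (k : ℕ) : Hk k (0 : MvPolynomial ι (MvPolynomial σ (Polynomial R))) := by
  intro α
  rw [coeff_zero]
  exact sup_zero _

lemma hk_add {k : ℕ} {g h : MvPolynomial ι (MvPolynomial σ (Polynomial R))} (hg : Hk k g)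
    (hh : Hk k h) : Hk k (g + h) := by
  intro α
  rw [coeff_add]
  exact sup_add (hg α) (hh α)

lemma hk_sum {k : ℕ} {J : Type} (I : Finset J)
    (f : J → MvPolynomial ι (MvPolynomial σ (Polynomial R))) (h : ∀ i ∈ I, Hk k (f i)) :
    Hk k (∑ i ∈ I, f i) := by
  classical
  induction I using Finset.induction_on with
  | empty => rw [Finset.sum_empty]; exact hk_zero k
  | insert a I ha ih =>
    rw [Finset.sum_insert ha]
    exact hk_add (h a (Finset.mem_insert_self _ _))
      (ih fun i hi => h i (Finset.mem_insert_of_mem hi))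

lemma hk_mul {k l : ℕ} {g h : MvPolynomial ι (MvPolynomial σ (Polynomial R))} (hg : Hk k g)
    (hh : Hk l h) : Hk (k + l) (g * h) := by
  classical
  intro α
  rw [coeff_mul]
  refine sup_sum _ _ fun x hx => ?_
  have hx' := Finset.HasAntidiagonal.mem_antidiagonal.1 hx
  refine sup_mul (hg x.1) (hh x.2) fun β i γ j hβ hγ => ?_
  rw [← hx', map_add, map_add]
  omega

lemma hk_one : Hk 0 (1 : MvPolynomial ι (MvPolynomial σ (Polynomial R))) := by
  classical
  intro α
  rw [coeff_one]
  split_ifs with h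
  · refine sup_mono sup_one fun β i hβ => ?_
    rw [← h, hβ.1, map_zero, map_zero, add_zero]
  · exact sup_zero _

lemma hk_C {s : MvPolynomial σ (Polynomial R)} {k : ℕ} (hs : s.IsHomogeneous k) :
    Hk k (C s : MvPolynomial ι (MvPolynomial σ (Polynomial R))) := by
  classical
  intro α
  rw [coeff_C]
  split_ifs with h
  · refine sup_mono (sup_hom hs) fun β i hβ => ?_
    rw [← h, map_zero, zero_add]
    exact hβ
  · exact sup_zero _

lemma hk_X (i : ι) : Hk 1 (X i : MvPolynomial ι (MvPolynomial σ (Polynomial R))) := by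
  classical
  intro α
  rw [coeff_X]
  split_ifs with h
  · refine sup_mono sup_one fun β i hβ => ?_
    rw [← h, hβ.1, map_zero, add_zero, Finsupp.degree_single]
  · exact sup_zero _

lemma hk_pow {k : ℕ} {g : MvPolynomial ι (MvPolynomial σ (Polynomial R))} (hg : Hk k g)
    (n : ℕ) : Hk (n * k) (g ^ n) := by
  induction n with
  | zero => rw [zero_mul, pow_zero]; exact hk_one
  | succ n ih =>
    rw [pow_succ, add_mul, one_mul]
    exact hk_mul ih hg

lemma hk_prod {J : Type} (I : Finset J)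
    (f : J → MvPolynomial ι (MvPolynomial σ (Polynomial R))) (k : J → ℕ)
    (h : ∀ i ∈ I, Hk (k i) (f i)) : Hk (∑ i ∈ I, k i) (∏ i ∈ I, f i) := by
  classical
  induction I using Finset.induction_on with
  | empty => rw [Finset.prod_empty, Finset.sum_empty]; exact hk_one
  | insert a I ha ih =>
    rw [Finset.prod_insert ha, Finset.sum_insert ha]
    exact hk_mul (h a (Finset.mem_insert_self _ _))
      (ih fun i hi => h i (Finset.mem_insert_of_mem hi))

lemma hk_eval {J : Type} [Fintype J] (f : J → MvPolynomial ι (MvPolynomial σ (Polynomial R)))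
    (d : J → ℕ) (hf : ∀ j, Hk (d j) (f j)) (k : ℕ) (F : MvPolynomial J (Polynomial R))
    (hF : F.IsWeightedHomogeneous d k) :
    Hk k (eval₂ ((MvPolynomial.C).comp MvPolynomial.C) f F) := by
  rw [eval₂_eq']
  refine hk_sum _ _ fun A hA => ?_
  have h1 : ∑ j, A j * d j = k := by
    have h2 := hF (mem_support_iff.1 hA)
    rw [Finsupp.weight_apply, Finsupp.sum_fintype _ _ (by intro i; exact zero_smul _ _)] at h2
    exact h2
  have h3 : Hk (0 + ∑ j, A j * d j) (((MvPolynomial.C).comp MvPolynomial.C) (coeff A F) *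
      ∏ j, f j ^ A j : MvPolynomial ι (MvPolynomial σ (Polynomial R))) := by
    refine hk_mul (hk_C (isHomogeneous_C _ _)) (hk_prod _ _ _ fun j _ => hk_pow (hf j) _)
  rw [zero_add, h1] at h3
  exact h3

lemma dvd_coeff {g : MvPolynomial ι (MvPolynomial σ (Polynomial R))} {m : ℕ}
    (h : (C (C (Polynomial.X ^ m)) : MvPolynomial ι (MvPolynomial σ (Polynomial R))) ∣ g)
    (α : ι →₀ ℕ) : Sup (fun _ i => m ≤ i) (coeff α g) := by
  obtain ⟨g', rfl⟩ := h
  intro β i hi
  by_contra hlt
  rw [coeff_C_mul, coeff_C_mul, Polynomial.coeff_X_pow_mul', if_neg hlt] at hi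
  exact hi rfl

/-- The substitution. -/
noncomputable def Psi' {τ : Type} [Fintype ι] [DecidableEq τ] (r : ι → τ) :
    MvPolynomial (σ ⊕ τ) (Polynomial R) →ₐ[Polynomial R]
      MvPolynomial ι (MvPolynomial σ (Polynomial R)) :=
  aeval (Sum.elim (fun l => C (X l)) (fun l => ∑ i, if r i = l then X i else 0))

lemma psi_inl {τ : Type} [Fintype ι] [DecidableEq τ] (r : ι → τ)
    (φ : MvPolynomial σ (Polynomial R)) : Psi' r (rename Sum.inl φ) = C φ := by
  have h : (Psi' (R := R) (σ := σ) r).comp (rename Sum.inl) =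
      IsScalarTower.toAlgHom (Polynomial R) (MvPolynomial σ (Polynomial R))
        (MvPolynomial ι (MvPolynomial σ (Polynomial R))) := by
    refine MvPolynomial.algHom_ext fun l => ?_
    rw [AlgHom.comp_apply, rename_X, Psi', aeval_X]
    rfl
  exact AlgHom.congr_fun h φ

lemma psi_iLR {τ : Type} [Fintype ι] [Fintype τ] [DecidableEq τ] (r : ι → τ)
    (P : LmR (Polynomial R) σ τ) :
    Psi' r (iLR P) = C P.1 + ∑ i, C (P.2 (r i)) * X i := by
  unfold iLR
  rw [map_add, map_sum, psi_inl]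
  congr 1
  have h1 : ∀ l, Psi' r (rename Sum.inl (P.2 l) * X (Sum.inr l)) =
      ∑ i, if r i = l then C (P.2 l) * X i else 0 := by
    intro l
    rw [map_mul, psi_inl, Psi', aeval_X, Sum.elim_inr, Finset.mul_sum]
    refine Finset.sum_congr rfl fun i _ => ?_
    rw [mul_ite, mul_zero]
  rw [Finset.sum_congr rfl fun l _ => h1 l, Finset.sum_comm]
  refine Finset.sum_congr rfl fun i _ => ?_
  rw [Finset.sum_ite_eq]
  simp

lemma psi_eval {τ J : Type} [Fintype ι] [Fintype τ] [DecidableEq τ] (r : ι → τ)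
    (P : J → LmR (Polynomial R) σ τ) (F : MvPolynomial J (Polynomial R)) :
    Psi' r (aeval (fun j => iLR (P j)) F) =
      eval₂ ((MvPolynomial.C).comp MvPolynomial.C)
        (fun j => C (P j).1 + ∑ i, C ((P j).2 (r i)) * X i) F := by
  have h1 : ((Psi' r).comp (aeval fun j => iLR (P j))) F =
      aeval (fun j => C (P j).1 + ∑ i, C ((P j).2 (r i)) * X i) F := by
    congr 1
    refine MvPolynomial.algHom_ext fun j => ?_
    rw [AlgHom.comp_apply, aeval_X, aeval_X, psi_iLR]
  rw [AlgHom.comp_apply] at h1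
  rw [h1]
  rfl

end

end VP

open VP in
theorem t_vpx (hCT4 : CT4Stmt) (hMIN : MINStmt) (hEXD : EXDStmt) (hCMX : CMXStmt) :
    VPXStmt := by
  classical
  intro κ L J _ _ _ p _ _ _ s q b hAd P d T k m hd hP hT hbr hp e he ev hev F hF hdvd
  -- the degree function
  obtain ⟨δ, hδ1, hδ2, hδ3⟩ := hEXD κ L s q b (k + 1) hAd e he
  obtain ⟨hc1, hc2⟩ := hCMX κ L (Fin s) (Fin q) b hAd e he
  -- characteristic
  have hone : (1 : Polynomial (UniversalEnvelopingAlgebra κ L)) ∉ δ.F (-1) := by
    intro h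
    rw [← map_one e, hδ1] at h
    have h1 := h 0 0 (by rw [← C_1, coeff_C, if_pos rfl, Polynomial.coeff_one_zero]; exact one_ne_zero)
    rw [map_zero] at h1
    push_cast at h1
    omega
  have hnt : Nontrivial (UniversalEnvelopingAlgebra κ L) := by
    by_contra hcon
    rw [not_nontrivial_iff_subsingleton] at hcon
    apply hone
    have h1 : (1 : Polynomial (UniversalEnvelopingAlgebra κ L)) = 0 :=
      Polynomial.ext fun i => Subsingleton.elim _ _
    rw [h1]
    exact zero_mem _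
  have hcU : CharP (UniversalEnvelopingAlgebra κ L) p :=
    charP_of_injective_algebraMap (algebraMap κ (UniversalEnvelopingAlgebra κ L)).injective p
  have hcU' : CharP (Polynomial (UniversalEnvelopingAlgebra κ L)) p :=
    charP_of_injective_ringHom
      (f := (Polynomial.C : UniversalEnvelopingAlgebra κ L →+* _)) Polynomial.C_injective p
  have hcS : CharP (MvPolynomial (Fin s) (Polynomial κ)) p := by
    have h1 : CharP (Polynomial κ) p :=
      charP_of_injective_ringHom (f := (Polynomial.C : κ →+* _)) Polynomial.C_injective p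
    exact charP_of_injective_ringHom (f := (MvPolynomial.C : Polynomial κ →+* _))
      (MvPolynomial.C_injective _ _) p
  -- minors
  obtain ⟨n, r, a, Δ, Ad, hn, hΔ0, hΔ, hAdj, h3, hmin⟩ :=
    hMIN (MvPolynomial (Fin s) (Polynomial κ)) (Fin q) J (fun l j => (P j).2 l) oo
  obtain ⟨M, hM⟩ : ∃ M : Matrix (Fin n) (Fin n) (MvPolynomial (Fin s) (Polynomial κ)),
    M = Matrix.of fun i k => (P (a k)).2 (r i) := ⟨_, rfl⟩
  rw [← hM] at hΔ hAdj
  rw [Fintype.card_fin] at hn
  have hN : ∀ l j, Sup (fun α i => α.degree = d j - 1 ∧ i ≤ T) ((P j).2 l) := by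
    intro l j α i hi
    exact ⟨sup_hom ((hP j).2 l) α i hi,
      (Polynomial.le_natDegree_of_ne_zero hi).trans (hT j l α)⟩
  have hMs : ∀ i k, Sup (fun α i => α.degree = d (a k) - 1 ∧ i ≤ T) (M i k) := by
    intro i k
    rw [hM]
    exact hN (r i) (a k)
  have hΔs := sup_det M (fun k => d (a k) - 1) T hMs
  have hAds := sup_adj M (fun k => d (a k) - 1) T hMs
  obtain ⟨h, hh⟩ : ∃ h, h = ∑ k, (d (a k) - 1) := ⟨_, rfl⟩
  rw [← hΔ, ← hh] at hΔs
  rw [← hAdj] at hAds
  have hsplit : ∀ j, ∑ i ∈ Finset.univ.erase j, (d (a i) - 1) + d (a j) = h + 1 := by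
    intro j
    have h1 := Finset.sum_erase_add Finset.univ (fun i => d (a i) - 1) (Finset.mem_univ j)
    have h2 := hd (a j)
    have h4 : d (a j) = (d (a j) - 1) + 1 := by omega
    rw [hh, ← h1]
    omega
  -- order of Δ
  have hoΔ : oo Δ ≤ q * T := by
    obtain ⟨α, hα⟩ := oo_spec hΔ0
    exact (hΔs α _ hα).2.trans (Nat.mul_le_mul_right T hn)
  -- the entries `M l k`
  have hMin : ∀ l k, Sup (fun α _ => α.degree = h)
      (∑ j, (P (a j)).2 l * Ad j k) := by
    intro l k
    refine sup_sum _ _ fun j _ => sup_mul (hN l (a j)) (hAds j k) fun α i β i' hα hβ => ?_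
    rw [map_add, hα.1, hβ]
    have h1 := hsplit j
    have h2 := hd (a j)
    omega
  have key : ∀ x : MvPolynomial (Fin s) (Polynomial κ), Sup (fun α _ => α.degree = h) x →
      (x = 0 ∨ oo Δ ≤ oo x) → e x ∈ δ.F ((h : ℤ) - (k + 1 : ℕ) * (oo Δ : ℕ)) := by
    intro x hx hx'
    rcases hx' with h0 | h0
    · rw [h0, map_zero]
      exact zero_mem _
    · rw [hδ1]
      intro α i hi
      have h1 := hx α i hi
      have h2 := h0.trans (oo_le hi)
      have h4 : (oo Δ : ℤ) ≤ i := by exact_mod_cast h2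
      rw [h1]
      nlinarith [(Nat.cast_nonneg (k + 1) : (0 : ℤ) ≤ ((k + 1 : ℕ) : ℤ))]
  have hdeg : ∀ (x : MvPolynomial (Fin s) (Polynomial κ)) (w : ℕ),
      Sup (fun α _ => α.degree = w) x → e x ∈ δ.F (w : ℤ) := by
    intro x w hx
    rw [hδ1]
    intro α i hi
    rw [hx α i hi]
    have : (0 : ℤ) ≤ ((k + 1 : ℕ) : ℤ) * (i : ℤ) := by positivity
    linarith
  have hbj : ∀ j, e (P j).1 ∈ δ.F (d j : ℤ) := fun j =>
    hdeg _ _ (sup_mono (sup_hom (hP j).1) fun α i hi => hi)
  have hqj : ∀ j, liX b e (P j) ∈ δ.F (d j : ℤ) := by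
    intro j
    unfold liX
    refine add_mem (hbj j) (sum_mem fun l _ => ?_)
    have h1 := δ.mul _ _ _ _ (hdeg ((P j).2 l) (d j - 1)
      (sup_mono (hN l j) fun α i hi => hi.1)) (hδ2 (Sum.inr l))
    have h2 : (((d j - 1 : ℕ) : ℤ)) + 1 = (d j : ℤ) := by
      have := hd j
      omega
    rw [h2] at h1
    exact h1
  -- the data
  have hMe : ∀ j k, (P (a k)).2 (r j) = M j k := by
    intro j k
    rw [hM]
    rfl
  obtain ⟨𝒟, hρ', he', hx', hD', hN', hb', hq', hr', ha', hΔ', hAd'⟩ : ∃ 𝒟 : CD (Polynomial κ)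
      (MvPolynomial (Fin s) (Polynomial κ)) (Polynomial (UniversalEnvelopingAlgebra κ L))
      (Fin q) (Fin n) J,
      𝒟.ρ = MvPolynomial.C ∧ 𝒟.e = e ∧
      𝒟.x = (fun l => Polynomial.C (UniversalEnvelopingAlgebra.ι κ (b (Sum.inr l)))) ∧
      𝒟.D = (fun l => (DC (cX (stc b)) l).restrictScalars ℤ) ∧
      𝒟.N = (fun l j => (P j).2 l) ∧ 𝒟.b = (fun j => (P j).1) ∧
      𝒟.q = (fun j => liX b e (P j)) ∧ 𝒟.r = r ∧ 𝒟.a = a ∧ 𝒟.Δ = Δ ∧ 𝒟.Ad = Ad :=
    ⟨{ ρ := MvPolynomial.C
       e := e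
       x := fun l => Polynomial.C (UniversalEnvelopingAlgebra.ι κ (b (Sum.inr l)))
       D := fun l => (DC (cX (stc b)) l).restrictScalars ℤ
       hρ := fun l f => MvPolynomial.derivation_C (DC (cX (stc b)) l) f
       hx := fun l φ => hc1 l φ
       N := fun l j => (P j).2 l
       b := fun j => (P j).1
       q := fun j => liX b e (P j)
       hq := fun j => rfl
       hc := fun i j => by
         have h1 := hc2 (P i) (P j)
         rw [hbr i j] at h1
         have h2 : liX b e (0 : LmR (Polynomial κ) (Fin s) (Fin q)) = 0 := by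
           unfold liX
           simp
         rw [h2] at h1
         exact sub_eq_zero.1 h1
       r := r
       a := a
       Δ := Δ
       Ad := Ad
       h1 := fun i k => by
         have h2 : (M.adjugate * M) i k = (M.det • (1 : Matrix (Fin n) (Fin n) _)) i k := by
           rw [Matrix.adjugate_mul]
         rw [Matrix.mul_apply, Matrix.smul_apply, Matrix.one_apply] at h2
         rw [hAdj, hΔ]
         simp only [hMe]
         rw [h2]
         split_ifs <;> simp
       h2 := fun i k => by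
         have h2 : (M * M.adjugate) i k = (M.det • (1 : Matrix (Fin n) (Fin n) _)) i k := by
           rw [Matrix.mul_adjugate]
         rw [Matrix.mul_apply, Matrix.smul_apply, Matrix.one_apply] at h2
         rw [hAdj, hΔ]
         simp only [hMe]
         rw [h2]
         split_ifs <;> simp
       h3 := h3 }, rfl, rfl, rfl, rfl, rfl, rfl, rfl, rfl, rfl, rfl, rfl⟩
  have hg : CDg 𝒟 δ p ((h : ℤ) - (k + 1 : ℕ) * (oo Δ : ℕ)) := by
    refine ⟨?_, ?_, ?_, ?_, ?_, ?_⟩
    · intro l
      rw [hx']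
      exact hδ2 _
    · intro l w φ hφ
      rw [he', hδ1] at hφ
      rw [he', hD', hδ1]
      exact sup_DC (stc b) l (fun w' i => (w' : ℤ) ≤ w + ((k + 1 : ℕ) : ℤ) * i) φ hφ
    · rw [he', hΔ']
      exact key Δ (sup_mono hΔs fun α i hi => hi.1) (Or.inr le_rfl)
    · rw [he', hΔ', hδ1]
      intro hcon
      obtain ⟨α, hα⟩ := oo_spec hΔ0
      have h1 := hcon α _ hα
      rw [(hΔs α _ hα).1] at h1
      linarith
    · intro l k'
      rw [he', hN', ha', hAd']
      exact key _ (hMin l k') (hmin l k')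
    · intro j k'
      refine ⟨((∑ i ∈ Finset.univ.erase j, (d (a i) - 1) : ℕ) : ℤ), (d (a j) : ℤ), ?_, ?_, ?_, ?_⟩
      · rw [he', hAd']
        exact hdeg _ _ (hAds j k')
      · rw [hq', ha']
        exact hqj (a j)
      · rw [he', hb', ha']
        exact hbj (a j)
      · have h1 := hsplit j
        have h2 : ((∑ i ∈ Finset.univ.erase j, (d (a i) - 1) : ℕ) : ℤ) + (d (a j) : ℤ) =
            (h : ℤ) + 1 := by exact_mod_cast h1
        rw [h2]
        have h4 : (k + 1) * oo Δ < p := lt_of_le_of_lt (Nat.mul_le_mul_left _ hoΔ) hp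
        have h5 : (((k + 1) * oo Δ : ℕ) : ℤ) + 1 ≤ (p : ℤ) := by exact_mod_cast h4
        push_cast at h5 ⊢
        linarith
  -- conclusion
  have hgk : Hk k (eval₂ ((MvPolynomial.C).comp MvPolynomial.C)
      (fun j => C (P j).1 + ∑ i, C ((P j).2 (r i)) * X i) F :
        MvPolynomial (Fin n) (MvPolynomial (Fin s) (Polynomial κ))) := by
    refine hk_eval _ d (fun j => hk_add (hk_C (hP j).1) (hk_sum _ _ fun i _ => ?_)) k F hF
    have h1 := hk_mul (hk_C (ι := Fin n) ((hP j).2 (r i))) (hk_X i)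
    have h2 : d j - 1 + 1 = d j := by
      have := hd j
      omega
    rw [h2] at h1
    exact h1
  have hgd : (C (C (Polynomial.X ^ m)) : MvPolynomial (Fin n) (MvPolynomial (Fin s)
      (Polynomial κ))) ∣ eval₂ ((MvPolynomial.C).comp MvPolynomial.C)
      (fun j => C (P j).1 + ∑ i, C ((P j).2 (r i)) * X i) F := by
    rw [← psi_eval]
    obtain ⟨G, hG⟩ := hdvd
    have h1 : Psi' (R := κ) (σ := Fin s) r (C (Polynomial.X ^ m)) = C (C (Polynomial.X ^ m)) :=
      (Psi' (R := κ) (σ := Fin s) r).commutes (Polynomial.X ^ m)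
    rw [hG, map_mul, h1]
    exact Dvd.intro _ rfl
  have hfin := hCT4 (Polynomial κ) (MvPolynomial (Fin s) (Polynomial κ))
    (Polynomial (UniversalEnvelopingAlgebra κ L)) (Fin q) (Fin n) J p 𝒟 δ _ hg ev
    (fun f => by
      rw [hρ', he', hev.hC, he.hC])
    (fun j => by rw [hq', hev.hX]) F ((k : ℤ) - ((k + 1 : ℕ) : ℤ) * m) _ rfl (by
      intro α
      rw [he', hρ', hb', hN', hr', hδ1]
      intro β i hi
      have h1 := hgk α β i hi
      have h2 := dvd_coeff hgd α β i hi
      have h4 : (α.degree : ℤ) + (β.degree : ℤ) = k := by exact_mod_cast h1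
      have h5 : (m : ℤ) ≤ i := by exact_mod_cast h2
      nlinarith [(Nat.cast_nonneg (k + 1) : (0 : ℤ) ≤ ((k + 1 : ℕ) : ℤ))])
  exact hδ3 k m _ (Nat.lt_succ_self k) hfin

end Pool.MFL
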