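import Pool.Agent.H51.MFM.All
import Pool.Agent.H38.MFQ.CEN
import Pool.Agent.H51.MFL.TPL
import Pool.Agent.H51.MFL.VPX
import Pool.Agent.H2.MFL.DGS
import Pool.Agent.H2.MFL.DGX
import Pool.Agent.H2.MFL.MDP
import Pool.Agent.H2.MFL.MIN
import Pool.Agent.H20.MFL.LIM
import Pool.Agent.H20.MFL.RLF
import Pool.Agent.H26.MFL.EXD
import Pool.Agent.H26.MFL.SYX
import Pool.Agent.H3.MFL.OrdR
import Pool.Agent.H34.MFL.DIR
import Pool.Agent.H34.MFL.FIN
import Pool.Agent.H34.MFL.SCL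
import Pool.Agent.H34.MFL.V0F
import Pool.Agent.H34.MFL.V0X
import Pool.Agent.H40.MFL.CT3
import Pool.Agent.H40.MFL.NSP
import Pool.Agent.H40.MFL.SAT
import Pool.Agent.H40.MFL.SPF
import Pool.Agent.H47.MFL.CHN
import Pool.Agent.H47.MFL.GNA
import Pool.Agent.H59.MFL.LEN
import Pool.Agent.H59.MFL.POX
import Pool.Agent.H76.MFL.EVX
import Pool.Agent.H77.MFL.CT1
import Pool.Agent.H77.MFL.CT2
import Pool.Agent.H77.MFL.CT4
import Pool.Agent.H77.MFL.TLM
import Pool.Agent.H79.MFL.CMX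
import Pool.Agent.H79.MFL.EXX
import Pool.Agent.H79.MFL.PBR
import Pool.Agent.H85.MFL.HOC
import Pool.Agent.H85.MFL.JAC
import Pool.Agent.H87.MFL.PWL
import Pool.Agent.H89.MFL.ASL
import Pool.Agent.H89.MFL.GSA

/-!
# Board mfl: assembly
-/

set_option autoImplicit false

namespace Pool.MFL

open Pool.MFQ Pool.MFM

theorem all_ct4 : CT4Stmt := t_ct4 (t_ct1 t_jac (t_hoc t_jac)) (t_ct2 t_pwl) t_ct3

theorem all_exd : EXDStmt := t_exd t_pbr (t_dgs t_pbr t_prd) t_dgx t_pab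

theorem all_vpx : VPXStmt := t_vpx all_ct4 t_min all_exd t_cmx

theorem all_v0x : V0XStmt :=
  t_v0x (t_v0f all_vpx t_pbr t_scl t_bch t_mdp t_exx (t_evx t_cmx))

theorem all_lim : LimStmt :=
  t_tpl t_bas t_dir (t_lim (t_nsp t_spf) t_sat (t_gna t_chn) t_tlm)
    (t_rlf all_v0x (t_evx t_cmx) t_syx t_len t_pox) (t_asl t_gsa) t_fin t_exx

theorem all_cen : CENStmt := t_cen t_stv t_vin

end Pool.MFL
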