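import Pool.Agent.H51.MFM.S
import Pool.Agent.H3.MFQ.Ord

/-!
# Board mfl (MP_84bfea_al): abelian ideals with condition (C), every `a`.  Typed Props

Text: team-store `MFL_PLAN_helper51.md`.
-/

set_option autoImplicit false

open Module MvPolynomial

namespace Pool.MFL

open Pool.MFQ Pool.MFM

/-! ## 1. Characteristic p -/

section CharP

/-- The commutator with `y`. -/
def adc {R : Type} [Ring R] (y w : R) : R := y * w - w * y

/-- JAC: Jacobson's formula, one of the two summands has commuting iterated commutators. -/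
def JACStmt : Prop :=
  ∀ (R : Type) [Ring R] (p : ℕ) [Fact p.Prime] [CharP R p] (y z : R),
    (∀ n : ℕ, z * (adc y)^[n] z = (adc y)^[n] z * z) →
    (y + z) ^ p = y ^ p + z ^ p + (adc y)^[p - 1] z

/-- Commuting elements `t a` which act by derivations on a commutative ring of functions. -/
structure Nrm (S U ι : Type) [CommRing S] [Ring U] where
  e : S →+* U
  t : ι → U
  X : ι → Derivation ℤ S S
  ht : ∀ a b, t a * t b = t b * t a
  hX : ∀ a s, t a * e s - e s * t a = e (X a s)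

/-- HOC: Hochschild's formula for several commuting elements. -/
def HOCStmt : Prop :=
  ∀ (S U ι : Type) [CommRing S] [Ring U] [Fintype ι] (p : ℕ) [Fact p.Prime] [CharP S p]
    [CharP U p] (H : Nrm S U ι) (A : ι → S),
    (∑ a, H.e (A a) * H.t a) ^ p = ∑ a, H.e (A a) ^ p * H.t a ^ p +
      ∑ a, H.e ((fun s => ∑ b, A b * H.X b s)^[p - 1] (A a)) * H.t a

/-- PWL: the `p`-th power of a linear relation with coefficients on the left. -/
def PWLStmt : Prop :=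
  ∀ (S U ι : Type) [CommRing S] [Ring U] [Fintype ι] (p : ℕ) [Fact p.Prime] [CharP S p]
    [CharP U p] (e : S →+* U) (t : ι → U), (∀ a b, t a * t b = t b * t a) →
    ∀ (q : U) (c ψ₀ : S) (ψ : ι → S), (∀ a, q * t a = t a * q) →
    e c * q = ∑ a, e (ψ a) * t a + e ψ₀ →
    e c ^ p * q ^ p = ∑ a, e (ψ a) ^ p * t a ^ p + e ψ₀ ^ p

/-- A degree function on a ring, given by a filtration; `str`: degrees add up. -/
structure Deg (U : Type) [Ring U] where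
  F : ℤ → AddSubgroup U
  mono : ∀ a b, a ≤ b → F a ≤ F b
  mul : ∀ a b u v, u ∈ F a → v ∈ F b → u * v ∈ F (a + b)
  one : (1 : U) ∈ F 0
  str : ∀ a b u v, u ∉ F a → v ∉ F b → u * v ∉ F (a + b + 1)

/-- The data of the core theorem. -/
structure CD (R₀ S U τ ι J : Type) [CommRing R₀] [CommRing S] [Ring U] [Fintype τ] [Fintype ι]
    [DecidableEq ι] where
  ρ : R₀ →+* S
  e : S →+* U
  x : τ → U
  D : τ → Derivation ℤ S S
  hρ : ∀ l r, D l (ρ r) = 0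
  hx : ∀ l s, x l * e s - e s * x l = e (D l s)
  N : τ → J → S
  b : J → S
  q : J → U
  hq : ∀ j, q j = e (b j) + ∑ l, e (N l j) * x l
  hc : ∀ i j, q i * q j = q j * q i
  r : ι → τ
  a : ι → J
  Δ : S
  Ad : ι → ι → S
  h1 : ∀ i k, ∑ j, Ad i j * N (r j) (a k) = if i = k then Δ else 0
  h2 : ∀ i k, ∑ j, N (r i) (a j) * Ad j k = if i = k then Δ else 0
  h3 : ∀ l j, Δ * N l j = ∑ i, ∑ k, N l (a i) * Ad i k * N (r k) j

section

variable {R₀ S U τ ι J : Type} [CommRing R₀] [CommRing S] [Ring U] [Fintype τ] [Fintype ι]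
    [DecidableEq ι]

/-- The elements `Y k`. -/
def CD.Y (𝒟 : CD R₀ S U τ ι J) (p : ℕ) (k : ι) : U :=
  ∑ j, 𝒟.e (𝒟.Ad j k) ^ p * (𝒟.q (𝒟.a j) ^ p - 𝒟.e (𝒟.b (𝒟.a j)) ^ p)

/-- The degree hypotheses. -/
structure CDg (𝒟 : CD R₀ S U τ ι J) (δ : Deg U) (p : ℕ) (dΔ : ℤ) : Prop where
  x1 : ∀ l, 𝒟.x l ∈ δ.F 1
  D0 : ∀ l (d : ℤ) s, 𝒟.e s ∈ δ.F d → 𝒟.e (𝒟.D l s) ∈ δ.F d
  Δ1 : 𝒟.e 𝒟.Δ ∈ δ.F dΔ
  Δ2 : 𝒟.e 𝒟.Δ ∉ δ.F (dΔ - 1)
  m : ∀ l k, 𝒟.e (∑ j, 𝒟.N l (𝒟.a j) * 𝒟.Ad j k) ∈ δ.F dΔ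
  bd : ∀ j k, ∃ d₁ d₂ : ℤ, 𝒟.e (𝒟.Ad j k) ∈ δ.F d₁ ∧ 𝒟.q (𝒟.a j) ∈ δ.F d₂ ∧
    𝒟.e (𝒟.b (𝒟.a j)) ∈ δ.F d₂ ∧ d₁ + d₂ ≤ dΔ + p

end

/-- CT1: the degree of `Y k`. -/
def CT1Stmt : Prop :=
  ∀ (R₀ S U τ ι J : Type) [CommRing R₀] [CommRing S] [Ring U] [Fintype τ] [Fintype ι]
    [DecidableEq ι] (p : ℕ) [Fact p.Prime] [CharP S p] [CharP U p] (𝒟 : CD R₀ S U τ ι J)
    (δ : Deg U) (dΔ : ℤ), CDg 𝒟 δ p dΔ → ∀ k, 𝒟.Y p k ∈ δ.F (p * (dΔ + 1))

/-- CT2: the `p`-th powers of the `q j`. -/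
def CT2Stmt : Prop :=
  ∀ (R₀ S U τ ι J : Type) [CommRing R₀] [CommRing S] [Ring U] [Fintype τ] [Fintype ι]
    [DecidableEq ι] (p : ℕ) [Fact p.Prime] [CharP S p] [CharP U p] (𝒟 : CD R₀ S U τ ι J) (j : J),
    𝒟.e 𝒟.Δ ^ p * 𝒟.q j ^ p = ∑ k, 𝒟.e (𝒟.N (𝒟.r k) j) ^ p * 𝒟.Y p k +
      𝒟.e 𝒟.Δ ^ p * 𝒟.e (𝒟.b j) ^ p

/-- CT3: substitution with denominators, commutative algebra. -/
def CT3Stmt : Prop :=
  ∀ (R₀ S B ι J : Type) [CommRing R₀] [CommRing S] [CommRing B] [Fintype ι] (ρ : R₀ →+* S)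
    (θ : S →+* B) (Δ : S) (N : ι → J → S) (b : J → S) (q : J → B) (Y : ι → B),
    (∀ j, θ Δ * q j = ∑ i, θ (N i j) * Y i + θ Δ * θ (b j)) →
    ∀ (F : MvPolynomial J R₀) (K : ℕ) (g : MvPolynomial ι S), F.totalDegree ≤ K →
    g = eval₂ ((MvPolynomial.C).comp ρ) (fun j => C (b j) + ∑ i, C (N i j) * X i) F →
    θ Δ ^ K * eval₂ (θ.comp ρ) q F =
      ∑ α ∈ g.support, θ (coeff α g) * θ Δ ^ (K - α.degree) * ∏ i, Y i ^ α i

/-- CT4: the core theorem. -/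
def CT4Stmt : Prop :=
  ∀ (R₀ S U τ ι J : Type) [CommRing R₀] [CommRing S] [Ring U] [Fintype τ] [Fintype ι]
    [DecidableEq ι] (p : ℕ) [Fact p.Prime] [CharP S p] [CharP U p] (𝒟 : CD R₀ S U τ ι J)
    (δ : Deg U) (dΔ : ℤ), CDg 𝒟 δ p dΔ →
    ∀ ev : MvPolynomial J R₀ →+* U, (∀ r, ev (C r) = 𝒟.e (𝒟.ρ r)) → (∀ j, ev (X j) = 𝒟.q j) →
    ∀ (F : MvPolynomial J R₀) (d : ℤ) (g : MvPolynomial ι S),
    g = eval₂ ((MvPolynomial.C).comp 𝒟.ρ)
      (fun j => C (𝒟.b j) + ∑ i, C (𝒟.N (𝒟.r i) j) * X i) F →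
    (∀ α, 𝒟.e (coeff α g) ∈ δ.F (d - α.degree)) → ev F ∈ δ.F d

/-- MIN: a nonzero minor of maximal size with minimal value of `o` among those with the same
columns. -/
def MINStmt : Prop :=
  ∀ (S τ J : Type) [CommRing S] [IsDomain S] [Fintype τ] [Fintype J] (N : τ → J → S)
    (o : S → ℕ),
    ∃ (m : ℕ) (r : Fin m → τ) (a : Fin m → J) (Δ : S) (Ad : Fin m → Fin m → S),
      m ≤ Fintype.card τ ∧ Δ ≠ 0 ∧ Δ = (Matrix.of fun i k => N (r i) (a k)).det ∧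
      Ad = (Matrix.of fun i k => N (r i) (a k)).adjugate ∧
      (∀ l j, Δ * N l j = ∑ i, ∑ k, N l (a i) * Ad i k * N (r k) j) ∧
      ∀ l k, ∑ j, N l (a j) * Ad j k = 0 ∨ o Δ ≤ o (∑ j, N l (a j) * Ad j k)

end CharP

/-! ## 2. Enveloping algebras over commutative rings -/

section Env

section

variable {R L : Type} [CommRing R] [LieRing L] [LieAlgebra R L]

/-- The linear map which sends a monomial to the ordered monomial. -/
noncomputable def pm {n : ℕ} (b : Basis (Fin n) R L) :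
    MvPolynomial (Fin n) R →ₗ[R] UniversalEnvelopingAlgebra R L :=
  (MvPolynomial.basisMonomials (Fin n) R).constr R fun α =>
    Ord.mo (fun i => UniversalEnvelopingAlgebra.ι R (b i)) α

/-- The structure constants of a basis. -/
noncomputable def stc {κ : Type} (b : Basis κ R L) (i j k : κ) : R := b.repr ⁅b i, b j⁆ k

end

/-- PBR: the Poincare-Birkhoff-Witt theorem over a commutative ring. -/
def PBRStmt : Prop :=
  ∀ (R L : Type) [CommRing R] [LieRing L] [LieAlgebra R L] (n : ℕ) (b : Basis (Fin n) R L),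
    Function.Bijective (pm b)

/-- PRD: products of ordered monomials, modulo lower degree. -/
def PRDStmt : Prop :=
  ∀ (R L : Type) [CommRing R] [LieRing L] [LieAlgebra R L] (n : ℕ) (b : Basis (Fin n) R L)
    (f g : MvPolynomial (Fin n) R) (d e : ℕ), f.totalDegree ≤ d → g.totalDegree ≤ e →
    ∃ h : MvPolynomial (Fin n) R, (h = 0 ∨ h.totalDegree < d + e) ∧
      pm b f * pm b g = pm b (f * g + h)

/-- PAB: polynomials in commuting basis elements. -/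
def PABStmt : Prop :=
  ∀ (R L σ : Type) [CommRing R] [LieRing L] [LieAlgebra R L] (n : ℕ) (b : Basis (Fin n) R L)
    (j : σ → Fin n), Function.Injective j → (∀ l m, ⁅b (j l), b (j m)⁆ = 0) →
    ∀ e : MvPolynomial σ R →ₐ[R] UniversalEnvelopingAlgebra R L,
    (∀ l, e (X l) = UniversalEnvelopingAlgebra.ι R (b (j l))) →
    ∀ φ, e φ = pm b (rename j φ)

/-- DGS: the degree function of the enveloping algebra. -/
def DGSStmt : Prop :=
  ∀ (κ L : Type) [Field κ] [LieRing L] [LieAlgebra κ L] (n : ℕ) (b : Basis (Fin n) κ L),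
    ∃ δ : Deg (UniversalEnvelopingAlgebra κ L),
      ∀ (d : ℤ) (f : MvPolynomial (Fin n) κ), pm b f ∈ δ.F d ↔ f = 0 ∨ (f.totalDegree : ℤ) ≤ d

/-- DGX: the extension of a degree function to polynomials. -/
def DGXStmt : Prop :=
  ∀ (U : Type) [Ring U] (δ : Deg U), (∀ u, ∃ d, u ∈ δ.F d) → (∀ u, u ≠ 0 → ∃ d, u ∉ δ.F d) →
    ∀ n : ℕ, ∃ δ' : Deg (Polynomial U),
      ∀ (d : ℤ) (u : Polynomial U), u ∈ δ'.F d ↔ ∀ i : ℕ, u.coeff i ∈ δ.F (d + n * i)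

/-- Elements of `S(V) + S(V)·h` over `R`. -/
abbrev LmR (R σ τ : Type) [CommRing R] : Type := MvPolynomial σ R × (τ → MvPolynomial σ R)

/-- The structure constants are adapted to the abelian ideal spanned by `σ`. -/
structure AdC {R σ τ : Type} [CommRing R] (c : σ ⊕ τ → σ ⊕ τ → σ ⊕ τ → R) : Prop where
  skew : ∀ i j k, c i j k = -c j i k
  ab : ∀ l m k, c (Sum.inl l) (Sum.inl m) k = 0
  idl : ∀ z l i, c z (Sum.inl l) (Sum.inr i) = 0

section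

variable {R σ τ : Type} [CommRing R] [Fintype σ]

/-- The derivation of `S(V)` given by the `i`-th element of the complement. -/
noncomputable def DC (c : σ ⊕ τ → σ ⊕ τ → σ ⊕ τ → R) (i : τ) :
    Derivation R (MvPolynomial σ R) (MvPolynomial σ R) :=
  MvPolynomial.mkDerivation R
    (fun l => ∑ m, C (c (Sum.inr i) (Sum.inl l) (Sum.inl m)) * X m)

/-- The `V` part of the brackets of the complement. -/
noncomputable def bC (c : σ ⊕ τ → σ ⊕ τ → σ ⊕ τ → R) (i j : τ) : MvPolynomial σ R :=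
  ∑ l, C (c (Sum.inr i) (Sum.inr j) (Sum.inl l)) * X l

variable [Fintype τ]

/-- The derivation of `S(V)` given by `P`. -/
noncomputable def dvC (c : σ ⊕ τ → σ ⊕ τ → σ ⊕ τ → R) (P : LmR R σ τ) (φ : MvPolynomial σ R) :
    MvPolynomial σ R := ∑ i, P.2 i * DC c i φ

/-- The Poisson bracket of `S(V) + S(V)·h`. -/
noncomputable def brC (c : σ ⊕ τ → σ ⊕ τ → σ ⊕ τ → R) (P Q : LmR R σ τ) : LmR R σ τ :=
  (∑ i, ∑ j, P.2 i * Q.2 j * bC c i j + dvC c P Q.1 - dvC c Q P.1,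
   fun k => ∑ i, ∑ j, C (c (Sum.inr i) (Sum.inr j) (Sum.inr k)) * (P.2 i * Q.2 j) +
     dvC c P (Q.2 k) - dvC c Q (P.2 k))

end

/-- `S(V) + S(V)·h` in the polynomial ring. -/
noncomputable def iLR {R σ τ : Type} [CommRing R] [Fintype τ] (P : LmR R σ τ) :
    MvPolynomial (σ ⊕ τ) R :=
  rename Sum.inl P.1 + ∑ i, rename Sum.inl (P.2 i) * X (Sum.inr i)

/-- `P` is homogeneous of degree `k`. -/
def HomR {R σ τ : Type} [CommRing R] (k : ℕ) (P : LmR R σ τ) : Prop :=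
  P.1.IsHomogeneous k ∧ ∀ i, (P.2 i).IsHomogeneous (k - 1)

/-- Constants in the ring of families. -/
noncomputable def cX {R κ : Type} [CommRing R] (c : κ → κ → κ → R) (i j k : κ) : Polynomial R :=
  Polynomial.C (c i j k)

section

variable {R L σ τ J : Type} [CommRing R] [LieRing L] [LieAlgebra R L]

/-- The embedding of the families of elements of `S(V)` into `U(L)[t]`. -/
structure IsEX (b : Basis (σ ⊕ τ) R L)
    (e : MvPolynomial σ (Polynomial R) →+* Polynomial (UniversalEnvelopingAlgebra R L)) :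
    Prop where
  hC : ∀ f : Polynomial R, e (C f) = f.map (algebraMap R (UniversalEnvelopingAlgebra R L))
  hX : ∀ l, e (X l) = Polynomial.C (UniversalEnvelopingAlgebra.ι R (b (Sum.inl l)))

/-- The lift with coefficients on the left. -/
noncomputable def liX [Fintype τ] (b : Basis (σ ⊕ τ) R L)
    (e : MvPolynomial σ (Polynomial R) →+* Polynomial (UniversalEnvelopingAlgebra R L))
    (P : LmR (Polynomial R) σ τ) : Polynomial (UniversalEnvelopingAlgebra R L) :=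
  e P.1 + ∑ i, e (P.2 i) * Polynomial.C (UniversalEnvelopingAlgebra.ι R (b (Sum.inr i)))

/-- Evaluation of polynomials at the lifts. -/
structure IsEv [Fintype τ] (b : Basis (σ ⊕ τ) R L)
    (e : MvPolynomial σ (Polynomial R) →+* Polynomial (UniversalEnvelopingAlgebra R L))
    (P : J → LmR (Polynomial R) σ τ)
    (ev : MvPolynomial J (Polynomial R) →+* Polynomial (UniversalEnvelopingAlgebra R L)) :
    Prop where
  hC : ∀ f : Polynomial R, ev (C f) = f.map (algebraMap R (UniversalEnvelopingAlgebra R L))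
  hX : ∀ j, ev (X j) = liX b e (P j)

end

/-- EXX: existence of the embedding. -/
def EXXStmt : Prop :=
  ∀ (R L σ τ : Type) [CommRing R] [LieRing L] [LieAlgebra R L] [Fintype σ] [Fintype τ]
    (b : Basis (σ ⊕ τ) R L), AdC (stc b) → ∃ e, IsEX b e

/-- CMX: commutators. -/
def CMXStmt : Prop :=
  ∀ (R L σ τ : Type) [CommRing R] [LieRing L] [LieAlgebra R L] [Fintype σ] [Fintype τ]
    (b : Basis (σ ⊕ τ) R L), AdC (stc b) → ∀ e, IsEX b e →
    (∀ i φ, Polynomial.C (UniversalEnvelopingAlgebra.ι R (b (Sum.inr i))) * e φ -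
      e φ * Polynomial.C (UniversalEnvelopingAlgebra.ι R (b (Sum.inr i))) =
        e (DC (cX (stc b)) i φ)) ∧
    ∀ P Q, liX b e P * liX b e Q - liX b e Q * liX b e P = liX b e (brC (cX (stc b)) P Q)

/-- EVX: evaluation at commuting lifts. -/
def EVXStmt : Prop :=
  ∀ (R L σ τ J : Type) [CommRing R] [LieRing L] [LieAlgebra R L] [Fintype σ] [Fintype τ]
    (b : Basis (σ ⊕ τ) R L), AdC (stc b) → ∀ e, IsEX b e → ∀ P : J → LmR (Polynomial R) σ τ,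
    (∀ i j, brC (cX (stc b)) (P i) (P j) = 0) →
    ∃ ev, IsEv b e P ev ∧ ∀ F G, ev F * ev G = ev G * ev F

/-- EXD: the degree function on `U(L)[t]`, where `t` has degree `-N`. -/
def EXDStmt : Prop :=
  ∀ (κ L : Type) [Field κ] [LieRing L] [LieAlgebra κ L] (s q : ℕ)
    (b : Basis (Fin s ⊕ Fin q) κ L) (N : ℕ), AdC (stc b) → ∀ e, IsEX b e →
    ∃ δ : Deg (Polynomial (UniversalEnvelopingAlgebra κ L)),
      (∀ (d : ℤ) φ, e φ ∈ δ.F d ↔ ∀ (α : Fin s →₀ ℕ) (i : ℕ), (coeff α φ).coeff i ≠ 0 →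
        (α.degree : ℤ) ≤ d + N * i) ∧
      (∀ z, Polynomial.C (UniversalEnvelopingAlgebra.ι κ (b z)) ∈ δ.F 1) ∧
      ∀ (k m : ℕ) u, k < N → u ∈ δ.F ((k : ℤ) - N * m) →
        ∃ v : Polynomial (UniversalEnvelopingAlgebra κ L), u = Polynomial.X ^ m * v

/-- VPX: in large characteristic the evaluation at the lifts preserves divisibility by `t`. -/
def VPXStmt : Prop :=
  ∀ (κ L J : Type) [Field κ] [LieRing L] [LieAlgebra κ L] (p : ℕ) [Fact p.Prime] [CharP κ p]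
    [Fintype J] (s q : ℕ) (b : Basis (Fin s ⊕ Fin q) κ L), AdC (stc b) →
    ∀ (P : J → LmR (Polynomial κ) (Fin s) (Fin q)) (d : J → ℕ) (T k m : ℕ),
    (∀ j, 1 ≤ d j) → (∀ j, HomR (d j) (P j)) →
    (∀ j i α, (coeff α ((P j).2 i)).natDegree ≤ T) →
    (∀ i j, brC (cX (stc b)) (P i) (P j) = 0) → (k + 1) * (q * T) < p →
    ∀ e, IsEX b e → ∀ ev, IsEv b e P ev → ∀ F : MvPolynomial J (Polynomial κ),
    F.IsWeightedHomogeneous d k → C (Polynomial.X ^ m) ∣ aeval (fun j => iLR (P j)) F →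
    ∃ u : Polynomial (UniversalEnvelopingAlgebra κ L), ev F = Polynomial.X ^ m * u

/-- SCL: Lie algebras with given structure constants. -/
def SCLStmt : Prop :=
  ∀ (R κ : Type) [CommRing R] [Fintype κ] (c : κ → κ → κ → R), (∀ i k, c i i k = 0) →
    (∀ i j k, c i j k = -c j i k) →
    (∀ i j k l, ∑ m, (c i j m * c m k l + c j k m * c m i l + c k i m * c m j l) = 0) →
    ∃ (L : Type) (_ : LieRing L) (_ : LieAlgebra R L) (b : Basis κ R L),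
      ∀ i j k, b.repr ⁅b i, b j⁆ k = c i j k

/-- BCH: base change. -/
def BCHStmt : Prop :=
  ∀ (R R' L L' : Type) [CommRing R] [CommRing R'] [LieRing L] [LieAlgebra R L] [LieRing L']
    [LieAlgebra R' L'] (φ : R →+* R') (n : ℕ) (b : Basis (Fin n) R L) (b' : Basis (Fin n) R' L'),
    (∀ i j k, b'.repr ⁅b' i, b' j⁆ k = φ (b.repr ⁅b i, b j⁆ k)) →
    ∃ Φ : UniversalEnvelopingAlgebra R L →+* UniversalEnvelopingAlgebra R' L',
      (∀ r, Φ (algebraMap R _ r) = algebraMap R' _ (φ r)) ∧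
      (∀ i, Φ (UniversalEnvelopingAlgebra.ι R (b i)) = UniversalEnvelopingAlgebra.ι R' (b' i)) ∧
      ∀ f, Φ (pm b f) = pm b' (MvPolynomial.map φ f)

/-- MDP: reduction modulo large primes. -/
def MDPStmt : Prop :=
  ∀ (S : Finset ℂ) (B : ℕ) (c : Algebra.adjoin ℤ (S : Set ℂ)), c ≠ 0 →
    ∃ (κ : Type) (_ : Field κ) (p : ℕ) (_ : Fact p.Prime) (_ : CharP κ p)
      (φ : Algebra.adjoin ℤ (S : Set ℂ) →+* κ), B < p ∧ φ c ≠ 0

/-- V0F: the same in characteristic `0`, finitely many elements. -/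
def V0FStmt : Prop :=
  ∀ (L J : Type) [LieRing L] [LieAlgebra ℂ L] [Fintype J] (s q : ℕ)
    (b : Basis (Fin s ⊕ Fin q) ℂ L), AdC (stc b) →
    ∀ (P : J → LmR (Polynomial ℂ) (Fin s) (Fin q)) (d : J → ℕ) (k m : ℕ),
    (∀ j, 1 ≤ d j) → (∀ j, HomR (d j) (P j)) →
    (∀ i j, brC (cX (stc b)) (P i) (P j) = 0) →
    ∀ e, IsEX b e → ∀ ev, IsEv b e P ev → ∀ F : MvPolynomial J (Polynomial ℂ),
    F.IsWeightedHomogeneous d k → C (Polynomial.X ^ m) ∣ aeval (fun j => iLR (P j)) F →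
    ∃ u : Polynomial (UniversalEnvelopingAlgebra ℂ L), ev F = Polynomial.X ^ m * u

/-- V0X: the same for arbitrary families. -/
def V0XStmt : Prop :=
  ∀ (L J : Type) [LieRing L] [LieAlgebra ℂ L] (s q : ℕ)
    (b : Basis (Fin s ⊕ Fin q) ℂ L), AdC (stc b) →
    ∀ (P : J → LmR (Polynomial ℂ) (Fin s) (Fin q)) (d : J → ℕ) (k m : ℕ),
    (∀ j, 1 ≤ d j) → (∀ j, HomR (d j) (P j)) →
    (∀ i j, brC (cX (stc b)) (P i) (P j) = 0) →
    ∀ e, IsEX b e → ∀ ev, IsEv b e P ev → ∀ F : MvPolynomial J (Polynomial ℂ),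
    F.IsWeightedHomogeneous d k → C (Polynomial.X ^ m) ∣ aeval (fun j => iLR (P j)) F →
    ∃ u : Polynomial (UniversalEnvelopingAlgebra ℂ L), ev F = Polynomial.X ^ m * u

/-- SYX: the symbol of the coefficients of `ev F`. -/
def SYXStmt : Prop :=
  ∀ (L J : Type) [LieRing L] [LieAlgebra ℂ L] (s q : ℕ) (b : Basis (Fin s ⊕ Fin q) ℂ L),
    AdC (stc b) → ∀ (P : J → LmR (Polynomial ℂ) (Fin s) (Fin q)) (d : J → ℕ) (k : ℕ),
    (∀ j, 1 ≤ d j) → (∀ j, HomR (d j) (P j)) → ∀ e, IsEX b e → ∀ ev, IsEv b e P ev →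
    ∀ F : MvPolynomial J (Polynomial ℂ), F.IsWeightedHomogeneous d k → ∀ i : ℕ,
    HasSym k ((ev F).coeff i)
      (fun ξ => (eval (fun z => Polynomial.C (ξ (b z))) (aeval (fun j => iLR (P j)) F)).coeff i)

end Env

/-! ## 3. Chains -/

section Chains

section

variable {R κ : Type} [CommRing R] [Fintype κ]

/-- The coadjoint vector fields. -/
noncomputable def dA (c : κ → κ → κ → R) (z : κ) (Φ : MvPolynomial κ R) : MvPolynomial κ R :=
  ∑ j, (∑ k, C (c z j k) * X k) * pderiv j Φ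

/-- Derivatives in constant directions. -/
noncomputable def dF (α : κ → κ → R) (z : κ) (Φ : MvPolynomial κ R) : MvPolynomial κ R :=
  ∑ j, C (α z j) * pderiv j Φ

/-- The Poisson bracket. -/
noncomputable def pbR (c : κ → κ → κ → R) (Φ Ψ : MvPolynomial κ R) : MvPolynomial κ R :=
  ∑ z, pderiv z Φ * dA c z Ψ

/-- Chains of length `N` at the point given by `α`. -/
structure Chn (c : κ → κ → κ → R) (α : κ → κ → R) (N : ℕ) (Φ : ℕ → MvPolynomial κ R) : Prop where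
  one : ∀ z, dF α z (Φ 1) = 0
  step : ∀ i, 1 ≤ i → i < N → ∀ z, dA c z (Φ i) + dF α z (Φ (i + 1)) = 0

end

/-- LEN: members of chains Poisson commute. -/
def LENStmt : Prop :=
  ∀ (R κ : Type) [CommRing R] [Fintype κ] (c : κ → κ → κ → R) (α : κ → κ → R) (N : ℕ)
    (Φ Ψ : ℕ → MvPolynomial κ R), (∀ i j k, c i j k = -c j i k) → (∀ i j, α i j = -α j i) →
    Chn c α N Φ → Chn c α N Ψ → ∀ i j, 1 ≤ i → 1 ≤ j → i + j ≤ N → pbR c (Φ i) (Ψ j) = 0

/-- POX: the Poisson bracket of elements of `S(V) + S(V)·h`. -/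
def POXStmt : Prop :=
  ∀ (R σ τ : Type) [CommRing R] [Fintype σ] [Fintype τ] (c : σ ⊕ τ → σ ⊕ τ → σ ⊕ τ → R),
    AdC c → Function.Injective (iLR : LmR R σ τ → MvPolynomial (σ ⊕ τ) R) ∧
    ∀ P Q : LmR R σ τ, pbR c (iLR P) (iLR Q) = iLR (brC c P Q)

/-- SPF: kernels of a pencil of linear maps. -/
def SPFStmt : Prop :=
  ∀ (E Y : Type) [AddCommGroup E] [Module ℂ E] [FiniteDimensional ℂ E] [AddCommGroup Y]
    [Module ℂ Y] (M₀ M₁ : E →ₗ[ℂ] Y),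
    ∃ Bad : Finset ℂ, ∀ t ∉ Bad, ∀ z : E, M₀ z + t • M₁ z = 0 →
      ∃ (n : ℕ) (y : ℕ → E), (∀ i, n ≤ i → y i = 0) ∧ M₀ (y 0) = 0 ∧
        (∀ i, M₀ (y (i + 1)) + M₁ (y i) = 0) ∧ ∑ i ∈ Finset.range n, t ^ i • y i = z

/-- The direction `A z t` in coordinates. -/
noncomputable def aC {R κ : Type} [CommRing R] [Fintype κ] (c : κ → κ → κ → R) (t : κ → R)
    (z j : κ) : R := ∑ k, c z j k * t k

/-- The directions for the family of points `a + t b`. -/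
noncomputable def aX {κ : Type} [Fintype κ] (c : κ → κ → κ → ℂ) (a b : κ → ℂ) (z j : κ) :
    Polynomial ℂ := Polynomial.C (aC c a z j) + Polynomial.X * Polynomial.C (aC c b z j)

/-- The value of a family at `t`. -/
noncomputable def vl {σ τ : Type} (t : ℂ) (P : LmR (Polynomial ℂ) σ τ) : LmR ℂ σ τ :=
  (MvPolynomial.map (Polynomial.evalRingHom t) P.1,
   fun i => MvPolynomial.map (Polynomial.evalRingHom t) (P.2 i))

/-- NSP: chains at a general point of the line are values of families of chains. -/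
def NSPStmt : Prop :=
  ∀ (σ τ : Type) [Fintype σ] [Fintype τ] (c : σ ⊕ τ → σ ⊕ τ → σ ⊕ τ → ℂ) (a b : σ ⊕ τ → ℂ)
    (N : ℕ), ∃ Bad : Finset ℂ, ∀ t ∉ Bad, ∀ Q : ℕ → LmR ℂ σ τ,
    (∀ n, 1 ≤ n → n ≤ N → HomR n (Q n)) →
    Chn c (aC c (fun z => a z + t * b z)) N (fun n => iLR (Q n)) →
    ∃ Q' : ℕ → LmR (Polynomial ℂ) σ τ, (∀ n, 1 ≤ n → n ≤ N → HomR n (Q' n)) ∧
      Chn (cX c) (aX c a b) N (fun n => iLR (Q' n)) ∧ ∀ n, 1 ≤ n → n ≤ N → vl t (Q' n) = Q n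

/-- SAT: limits of values of a saturated module of families. -/
def SATStmt : Prop :=
  ∀ (n : ℕ) (G : Submodule (Polynomial ℂ) (Fin n → Polynomial ℂ)),
    (∀ g : Fin n → Polynomial ℂ, (Polynomial.X : Polynomial ℂ) • g ∈ G → g ∈ G) →
    ∀ (T : Set ℂ) (v : ℂ → Fin n → ℂ) (v₀ : Fin n → ℂ), (0 : ℂ) ∈ closure (T \ {0}) →
    Filter.Tendsto v (nhdsWithin 0 (T \ {0})) (nhds v₀) →
    (∀ t ∈ T, t ≠ 0 → ∃ g ∈ G, ∀ i, (g i).eval t = v t i) →
    ∃ g ∈ G, ∀ i, (g i).eval 0 = v₀ i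

/-- CHN: the Taylor coefficients of a local invariant form a chain. -/
def CHNStmt : Prop :=
  ∀ (κ : Type) [Fintype κ] (c : κ → κ → κ → ℂ) (A : κ → ((κ → ℂ) →L[ℂ] (κ → ℂ))) (a : κ → ℂ)
    (f : (κ → ℂ) → ℂ) (Φ : ℕ → MvPolynomial κ ℂ), (∀ z t j, A z t j = aC c t z j) →
    InvAt A a f → (∀ n, 1 ≤ n → ∀ t, tayE a f n t = eval t (Φ n)) →
    ∀ N, Chn c (aC c a) N Φ

/-- GNA: at generic points all Taylor coefficients are polynomials in members of affine chains. -/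
def GNAStmt : Prop :=
  ∀ (L : Type) [LieRing L] [LieAlgebra ℂ L] [FiniteDimensional ℂ L] (V : LieIdeal ℂ L)
    (s q : ℕ) (b : Basis (Fin s ⊕ Fin q) ℂ L) (a : Fin s ⊕ Fin q → ℂ), IsAb V → CondC V →
    Adp V b → Gen V (dualC b a) →
    ∀ (f : (Fin s ⊕ Fin q → ℂ) → ℂ) (k : ℕ), InvAt (opA b) a f → 1 ≤ k →
    ∃ (J : Type) (Q : J → ℕ → LmR ℂ (Fin s) (Fin q)) (i : J → ℕ) (F : MvPolynomial J ℂ),
      (∀ j, 1 ≤ i j) ∧ (∀ j n, 1 ≤ n → HomR n (Q j n)) ∧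
      (∀ j N, Chn (stc b) (aC (stc b) a) N (fun n => iLR (Q j n))) ∧
      F.IsWeightedHomogeneous i k ∧
      ∀ t, tayE a f k t = eval t (aeval (fun j => iLR (Q j (i j))) F)

/-- TLM: continuity of the Taylor coefficients in the base point. -/
def TLMStmt : Prop :=
  ∀ (κ : Type) [Fintype κ] (a b : κ → ℂ) (f : (κ → ℂ) → ℂ) (k : ℕ)
    (p : ℂ → MvPolynomial κ ℂ), AnalyticAt ℂ f a →
    (∀ᶠ t in nhds (0 : ℂ), (p t).IsHomogeneous k ∧
      ∀ x, tayE (fun z => a z + t * b z) f k x = eval x (p t)) →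
    ∀ α, Filter.Tendsto (fun t => coeff α (p t)) (nhds 0) (nhds (coeff α (p 0)))

/-- The members of families of chains, up to position `K`. -/
def JK {σ τ : Type} [Fintype σ] [Fintype τ] (c : σ ⊕ τ → σ ⊕ τ → σ ⊕ τ → ℂ)
    (α : σ ⊕ τ → σ ⊕ τ → Polynomial ℂ) (K : ℕ) : Type :=
  {x : ℕ × LmR (Polynomial ℂ) σ τ // 1 ≤ x.1 ∧ x.1 ≤ K ∧
    ∃ Q : ℕ → LmR (Polynomial ℂ) σ τ, (∀ n, 1 ≤ n → n ≤ 2 * K → HomR n (Q n)) ∧
      Chn (cX c) α (2 * K) (fun n => iLR (Q n)) ∧ Q x.1 = x.2}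

/-- The families in the saturation of the algebra generated by the affine chains. -/
def InG {σ τ : Type} [Fintype σ] [Fintype τ] (c : σ ⊕ τ → σ ⊕ τ → σ ⊕ τ → ℂ)
    (α : σ ⊕ τ → σ ⊕ τ → Polynomial ℂ) (K k : ℕ) (G : MvPolynomial (σ ⊕ τ) (Polynomial ℂ)) :
    Prop :=
  ∃ (m : ℕ) (F : MvPolynomial (JK c α K) (Polynomial ℂ)),
    F.IsWeightedHomogeneous (fun x => x.1.1) k ∧
    aeval (fun x : JK c α K => iLR x.1.2) F = C (Polynomial.X ^ m) * G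

/-- LIM: the Taylor coefficients at `a` are limits. -/
def LIMStmt : Prop :=
  ∀ (L : Type) [LieRing L] [LieAlgebra ℂ L] [FiniteDimensional ℂ L] (V : LieIdeal ℂ L)
    (s q : ℕ) (b : Basis (Fin s ⊕ Fin q) ℂ L) (a₀ b₀ : Fin s ⊕ Fin q → ℂ), IsAb V → CondC V →
    Adp V b → (∀ᶠ t in nhdsWithin (0 : ℂ) {0}ᶜ, Gen V (dualC b (fun z => a₀ z + t * b₀ z))) →
    ∀ (f : (Fin s ⊕ Fin q → ℂ) → ℂ) (K k : ℕ) (p : MvPolynomial (Fin s ⊕ Fin q) ℂ),
    InvAt (opA b) a₀ f → 1 ≤ k → k ≤ K → p.IsHomogeneous k →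
    (∀ t, tayE a₀ f k t = eval t p) →
    ∃ G, InG (stc b) (aX (stc b) a₀ b₀) K k G ∧
      MvPolynomial.map (Polynomial.evalRingHom 0) G = p

/-- DIR: a direction in which the points are generic. -/
def DIRStmt : Prop :=
  ∀ (L : Type) [LieRing L] [LieAlgebra ℂ L] [FiniteDimensional ℂ L] (V : LieIdeal ℂ L)
    (s q : ℕ) (b : Basis (Fin s ⊕ Fin q) ℂ L) (a₀ : Fin s ⊕ Fin q → ℂ),
    ∃ b₀ : Fin s ⊕ Fin q → ℂ,
      ∀ᶠ t in nhdsWithin (0 : ℂ) {0}ᶜ, Gen V (dualC b (fun z => a₀ z + t * b₀ z))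

end Chains

/-! ## 4. Assembly -/

section Assembly

/-- The relation between symbols and their lifts, at level `K`. -/
def RelX {L : Type} [LieRing L] [LieAlgebra ℂ L] {s q : ℕ} (b : Basis (Fin s ⊕ Fin q) ℂ L)
    (α : Fin s ⊕ Fin q → Fin s ⊕ Fin q → Polynomial ℂ)
    (e : MvPolynomial (Fin s) (Polynomial ℂ) →+* Polynomial (UniversalEnvelopingAlgebra ℂ L))
    (K k : ℕ) (g : MvPolynomial (Fin s ⊕ Fin q) ℂ) (u : UniversalEnvelopingAlgebra ℂ L) : Prop :=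
  ∃ (ev : MvPolynomial (JK (stc b) α K) (Polynomial ℂ) →+*
      Polynomial (UniversalEnvelopingAlgebra ℂ L)) (m : ℕ)
    (F : MvPolynomial (JK (stc b) α K) (Polynomial ℂ))
    (G : MvPolynomial (Fin s ⊕ Fin q) (Polynomial ℂ))
    (û : Polynomial (UniversalEnvelopingAlgebra ℂ L)),
    IsEv b e (fun x : JK (stc b) α K => x.1.2) ev ∧ F.IsWeightedHomogeneous (fun x => x.1.1) k ∧
    aeval (fun x : JK (stc b) α K => iLR x.1.2) F = C (Polynomial.X ^ m) * G ∧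
    ev F = Polynomial.X ^ m * û ∧ MvPolynomial.map (Polynomial.evalRingHom 0) G = g ∧
    û.coeff 0 = u

/-- Facts on the relation. -/
structure RFacts {L : Type} [LieRing L] [LieAlgebra ℂ L] {s q : ℕ}
    (b : Basis (Fin s ⊕ Fin q) ℂ L)
    (R : ℕ → ℕ → MvPolynomial (Fin s ⊕ Fin q) ℂ → UniversalEnvelopingAlgebra ℂ L → Prop) :
    Prop where
  add : ∀ K k g u g' u', R K k g u → R K k g' u' → R K k (g + g') (u + u')
  smul : ∀ K k (z : ℂ) g u, R K k g u → R K k (z • g) (z • u)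
  one : ∀ K, R K 0 1 1
  mul : ∀ K k l g u g' u', R K k g u → R K l g' u' → R K (k + l) (g * g') (u * u')
  zero0 : ∀ K k, R K k 0 0
  zero : ∀ K k u, R K k 0 u → u = 0
  comm : ∀ K k l g u g' u', R K k g u → R K l g' u' → u * u' = u' * u
  sym : ∀ K k g u, R K k g u → HasSym k u (evP b g)
  mono : ∀ K k g u, k ≤ K → R (K + 1) k g u → R K k g u

/-- RLF: the facts hold for `RelX`, and every family gives an element. -/
def RLFStmt : Prop :=
  ∀ (L : Type) [LieRing L] [LieAlgebra ℂ L] [FiniteDimensional ℂ L] (s q : ℕ)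
    (b : Basis (Fin s ⊕ Fin q) ℂ L) (a₀ b₀ : Fin s ⊕ Fin q → ℂ), AdC (stc b) →
    ∀ e, IsEX b e → RFacts b (RelX b (aX (stc b) a₀ b₀) e) ∧
      ∀ K k G, InG (stc b) (aX (stc b) a₀ b₀) K k G →
        ∃ u, RelX b (aX (stc b) a₀ b₀) e K k
          (MvPolynomial.map (Polynomial.evalRingHom 0) G) u

/-- GSA: homogeneous elements of an algebra generated by homogeneous elements. -/
def GSAStmt : Prop :=
  ∀ (κ : Type) [Fintype κ] (S : Set (MvPolynomial κ ℂ))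
    (W : ℕ → Submodule ℂ (MvPolynomial κ ℂ)),
    (∀ p ∈ S, ∃ k, 1 ≤ k ∧ p.IsHomogeneous k ∧ p ∈ W k) → (1 : MvPolynomial κ ℂ) ∈ W 0 →
    (∀ k, ∀ p ∈ W k, p.IsHomogeneous k) →
    (∀ k l, ∀ p ∈ W k, ∀ p' ∈ W l, p * p' ∈ W (k + l)) →
    (∀ p ∈ Algebra.adjoin ℂ S, ∀ n, homogeneousComponent n p ∈ W n) ∧
    (∀ p ∈ Algebra.adjoin ℂ S, ∀ n, homogeneousComponent n p ∈ Algebra.adjoin ℂ S)

/-- ASL: the quantisation of the algebra generated by a set of homogeneous polynomials, from the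
facts on the relation. -/
def ASLStmt : Prop :=
  ∀ (L : Type) [LieRing L] [LieAlgebra ℂ L] [FiniteDimensional ℂ L] (s q : ℕ)
    (b : Basis (Fin s ⊕ Fin q) ℂ L)
    (R : ℕ → ℕ → MvPolynomial (Fin s ⊕ Fin q) ℂ → UniversalEnvelopingAlgebra ℂ L → Prop)
    (S : Set (MvPolynomial (Fin s ⊕ Fin q) ℂ)), RFacts b R →
    (∀ p ∈ S, ∃ k, 1 ≤ k ∧ p.IsHomogeneous k ∧ ∀ K, k ≤ K → ∃ u, R K k p u) →
    ∃ Â : Subalgebra ℂ (UniversalEnvelopingAlgebra ℂ L),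
      (∀ u ∈ Â, ∀ v ∈ Â, u * v = v * u) ∧
      (∀ u ∈ Â, u ≠ 0 → ∃ (k : ℕ) (G : MvPolynomial (Fin s ⊕ Fin q) ℂ),
        G ∈ Algebra.adjoin ℂ S ∧ G ≠ 0 ∧ G.IsHomogeneous k ∧ HasSym k u (evP b G)) ∧
      ∀ (k : ℕ) (G : MvPolynomial (Fin s ⊕ Fin q) ℂ), G ∈ Algebra.adjoin ℂ S →
        G.IsHomogeneous k → ∃ u ∈ Â, HasSym k u (evP b G)

/-- FIN: from a quantisation in the sense of `ASLStmt` to `IsQuant`. -/
def FINStmt : Prop :=
  ∀ (L : Type) [LieRing L] [LieAlgebra ℂ L] [FiniteDimensional ℂ L] (s q : ℕ)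
    (b : Basis (Fin s ⊕ Fin q) ℂ L) (a : Dual ℂ L)
    (Â : Subalgebra ℂ (UniversalEnvelopingAlgebra ℂ L)),
    (∀ u ∈ Â, ∀ v ∈ Â, u * v = v * u) →
    (∀ u ∈ Â, u ≠ 0 → ∃ (k : ℕ) (G : MvPolynomial (Fin s ⊕ Fin q) ℂ),
      G ∈ Algebra.adjoin ℂ (TPs (opA b) ((dualC b).symm a)) ∧ G ≠ 0 ∧ G.IsHomogeneous k ∧
        HasSym k u (evP b G)) →
    (∀ (k : ℕ) (G : MvPolynomial (Fin s ⊕ Fin q) ℂ),
      G ∈ Algebra.adjoin ℂ (TPs (opA b) ((dualC b).symm a)) → G.IsHomogeneous k →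
        ∃ u ∈ Â, HasSym k u (evP b G)) →
    IsQuant a Â

/-- The final statement. -/
def LimStmt : Prop :=
  ∀ (L : Type) [LieRing L] [LieAlgebra ℂ L] [FiniteDimensional ℂ L] (V : LieIdeal ℂ L),
    IsAb V → CondC V → ∀ a : Dual ℂ L,
    ∃ A : Subalgebra ℂ (UniversalEnvelopingAlgebra ℂ L), IsQuant a A

end Assembly

end Pool.MFL
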